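import Pool.Agent.Y255.SD.A78
import Pool.Agent.H935R2.PS.A1

set_option autoImplicit false

/-!
# A multiplier with small planar discrepancy (for C20 of the project of helper258)
-/

namespace Pool.Agent.Y245.SD

open Finset Pool.Agent.H935R2.PS Pool.Agent.Y258 Pool.Agent.Y255.SD

variable {q : ℕ} [hq : Fact q.Prime]

lemma inv_nn_zero : (1 : ℝ) / nn (0 : ZMod q) = 0 := by
  unfold nn
  simp

open Classical in
theorem sum_inv_nn_all (h3 : 3 ≤ q) : ∑ x : ZMod q, (1:ℝ) / nn x ≤ 2 * (La q + 1) := by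
  refine le_trans (le_of_eq ?_) (sum_inv_nn (q := q) (by omega))
  rw [Finset.sum_filter]
  refine Finset.sum_congr rfl fun x _ => ?_
  by_cases hx : x = 0
  · rw [hx, inv_nn_zero]; simp
  · rw [if_pos hx]

theorem sum_mul_nn {h : ZMod q} (hh : h ≠ 0) :
    ∑ α : ZMod q, (1:ℝ) / nn (α * h) = ∑ x : ZMod q, (1:ℝ) / nn x :=
  Fintype.sum_equiv (Equiv.mulRight₀ h hh) _ _ (fun _ => rfl)

/-- a good multiplier exists -/
theorem exists_mult (h3 : 3 ≤ q) : ∃ α : ZMod q, α ≠ 0 ∧
    q * ∑ h : ZMod q, (1:ℝ) / nn (α * h) * (1 / nn h) ≤ 24 * (La q : ℝ) ^ 2 := by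
  classical
  set S := ∑ x : ZMod q, (1:ℝ) / nn x with hS
  have hS0 : 0 ≤ S := Finset.sum_nonneg fun x _ => by positivity
  have hS1 : S ≤ 2 * (La q + 1) := sum_inv_nn_all h3
  have h1 : ∑ α : ZMod q, ∑ h : ZMod q, (1:ℝ) / nn (α * h) * (1 / nn h) = S ^ 2 := by
    rw [Finset.sum_comm]
    have h2 : ∀ h : ZMod q, ∑ α : ZMod q, (1:ℝ) / nn (α * h) * (1 / nn h) = S * (1 / nn h) := by
      intro h
      rw [← Finset.sum_mul]
      by_cases hh : h = 0
      · rw [hh, inv_nn_zero, mul_zero, mul_zero]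
      · rw [sum_mul_nn hh]
    rw [Finset.sum_congr rfl (fun h _ => h2 h), ← Finset.mul_sum, ← hS, sq]
  have h4 : ∑ α ∈ (univ : Finset (ZMod q)).erase 0, ∑ h : ZMod q,
      (1:ℝ) / nn (α * h) * (1 / nn h) ≤ ∑ _α ∈ (univ : Finset (ZMod q)).erase 0,
        S ^ 2 / ((q:ℝ) - 1) := by
    rw [Finset.sum_const, Finset.card_erase_of_mem (mem_univ _), Finset.card_univ, ZMod.card,
      nsmul_eq_mul, Nat.cast_sub (by omega), Nat.cast_one]
    have h5 : (0:ℝ) < (q:ℝ) - 1 := by
      have : (3:ℝ) ≤ q := by exact_mod_cast h3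
      linarith
    rw [mul_div_cancel₀ _ h5.ne', ← h1]
    exact Finset.sum_le_sum_of_subset_of_nonneg (Finset.erase_subset _ _)
      (fun α _ _ => Finset.sum_nonneg fun x _ => by positivity)
  have hne : ((univ : Finset (ZMod q)).erase 0).Nonempty := by
    refine ⟨1, ?_⟩
    simp
  obtain ⟨α, hα, h5⟩ := Finset.exists_le_of_sum_le hne h4
  refine ⟨α, (Finset.mem_erase.1 hα).1, ?_⟩
  have hL : (1:ℝ) ≤ La q := by exact_mod_cast La_pos h3
  have hq3 : (3:ℝ) ≤ q := by exact_mod_cast h3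
  have h6 : S ^ 2 ≤ (4 * (La q : ℝ)) ^ 2 := by
    apply pow_le_pow_left₀ hS0
    linarith
  calc (q:ℝ) * ∑ h : ZMod q, (1:ℝ) / nn (α * h) * (1 / nn h)
      ≤ q * (S ^ 2 / ((q:ℝ) - 1)) := by gcongr
    _ ≤ q * ((4 * (La q : ℝ)) ^ 2 / ((q:ℝ) - 1)) := by
        have : (0:ℝ) < (q:ℝ) - 1 := by linarith
        gcongr
    _ ≤ 24 * (La q : ℝ) ^ 2 := by
        have : (0:ℝ) < (q:ℝ) - 1 := by linarith
        rw [← mul_div_assoc, div_le_iff₀ this]
        nlinarith [sq_nonneg (La q : ℝ)]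

lemma nn_neg (x : ZMod q) : nn (-x) = nn x := by
  unfold nn
  rw [ZMod.natAbs_valMinAbs_neg]

/-- the indicator of an initial interval -/
theorem ind_char {t : ℕ} (ht : t < q) (i : ZMod q) :
    ((if i.val < t then (1:ℂ) else 0)) =
      ∑ h : ZMod q, Fc t 0 h * ZMod.stdAddChar (-(h * (i + 1))) := by
  classical
  have hq' : (q : ℂ) ≠ 0 := by exact_mod_cast (NeZero.ne q)
  have h1 : ∀ h : ZMod q, Fc t 0 h * ZMod.stdAddChar (-(h * (i + 1))) =
      (1 / (q:ℂ)) * ∑ j ∈ Icc 1 t, ZMod.stdAddChar (h * ((j : ZMod q) - (i + 1))) := by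
    intro h
    unfold Fc
    rw [Complex.ofReal_zero, add_zero, div_mul_eq_mul_div, Finset.sum_mul, one_div_mul_eq_div]
    congr 1
    refine Finset.sum_congr rfl fun j _ => ?_
    rw [← AddChar.map_add_eq_mul]
    congr 1
    ring
  rw [Finset.sum_congr rfl (fun h _ => h1 h), ← Finset.mul_sum, Finset.sum_comm]
  have h2 : ∀ j ∈ Icc 1 t, ∑ h : ZMod q, (ZMod.stdAddChar (h * ((j : ZMod q) - (i + 1))) : ℂ) =
      if j = i.val + 1 then (q:ℂ) else 0 := by
    intro j hj
    rw [mem_Icc] at hj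
    rw [TA2.sum_char']
    have h3 : ((j : ZMod q) - (i + 1) = 0) ↔ j = i.val + 1 := by
      constructor
      · intro h
        have h4 : (((j - 1 : ℕ)) : ZMod q) = i := by
          rw [Nat.cast_sub hj.1, Nat.cast_one]
          linear_combination h
        have h5 : (((j - 1 : ℕ)) : ZMod q).val = j - 1 := ZMod.val_natCast_of_lt (by omega)
        rw [h4] at h5
        omega
      · intro h
        rw [h]
        push_cast
        rw [ZMod.natCast_zmod_val]
        ring
    by_cases h : j = i.val + 1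
    · rw [if_pos (h3.2 h), if_pos h]
    · rw [if_neg (fun h' => h (h3.1 h')), if_neg h]
  rw [Finset.sum_congr rfl h2, Finset.sum_ite_eq']
  by_cases h : i.val < t
  · rw [if_pos h, if_pos (by rw [mem_Icc]; omega)]
    field_simp
  · rw [if_neg h, if_neg (by rw [mem_Icc]; omega), mul_zero]

open Classical in
/-- the planar discrepancy -/
theorem planar_disc {α : ZMod q} (hα : α ≠ 0) {x y : ℕ} (hx : x < q) (hy : y < q) :
    |(((univ : Finset (ZMod q)).filter (fun i => i.val < x ∧ (α * i).val < y)).card : ℝ) -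
      x * y / q| ≤ q * ∑ h : ZMod q, (1:ℝ) / nn (α * h) * (1 / nn h) := by
  have hq' : (q : ℂ) ≠ 0 := by exact_mod_cast (NeZero.ne q)
  have h1 : ((((univ : Finset (ZMod q)).filter (fun i => i.val < x ∧ (α * i).val < y)).card : ℝ)
      : ℂ) = ∑ k : ZMod q, (q:ℂ) * (Fc x 0 (-(k * α)) * Fc y 0 k *
        ZMod.stdAddChar (k * α - k)) := by
    rw [Finset.card_filter, Complex.ofReal_natCast, Nat.cast_sum]
    have h2 : ∀ i : ZMod q, (if i.val < x ∧ (α * i).val < y then (1:ℂ) else 0) =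
        ∑ h : ZMod q, ∑ k : ZMod q, Fc x 0 h * Fc y 0 k *
          (ZMod.stdAddChar (-h - k) * ZMod.stdAddChar (i * (-(h + k * α)))) := by
      intro i
      have h3 : (if i.val < x ∧ (α * i).val < y then (1:ℂ) else 0) =
          (if i.val < x then (1:ℂ) else 0) * (if (α * i).val < y then (1:ℂ) else 0) := by
        by_cases h4 : i.val < x <;> by_cases h5 : (α * i).val < y <;> simp [h4, h5]
      rw [h3, ind_char hx, ind_char hy, Finset.sum_mul_sum]
      refine Finset.sum_congr rfl fun h _ => Finset.sum_congr rfl fun k _ => ?_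
      have h6 : (ZMod.stdAddChar (-h - k) : ℂ) * ZMod.stdAddChar (i * (-(h + k * α))) =
          ZMod.stdAddChar (-(h * (i + 1))) * ZMod.stdAddChar (-(k * (α * i + 1))) := by
        rw [← AddChar.map_add_eq_mul, ← AddChar.map_add_eq_mul]
        congr 1
        ring
      rw [h6]
      ring
    have h2' : ∀ i : ZMod q, (((if i.val < x ∧ (α * i).val < y then 1 else 0 : ℕ)) : ℂ) =
        ∑ h : ZMod q, ∑ k : ZMod q, Fc x 0 h * Fc y 0 k *
          (ZMod.stdAddChar (-h - k) * ZMod.stdAddChar (i * (-(h + k * α)))) := by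
      intro i
      rw [← h2 i]
      split_ifs <;> simp
    rw [Finset.sum_congr rfl (fun i _ => h2' i), Finset.sum_comm]
    have h7 : ∀ h : ZMod q, ∑ i : ZMod q, ∑ k : ZMod q, Fc x 0 h * Fc y 0 k *
          (ZMod.stdAddChar (-h - k) * ZMod.stdAddChar (i * (-(h + k * α)))) =
        ∑ k : ZMod q, Fc x 0 h * Fc y 0 k * (ZMod.stdAddChar (-h - k) *
          (if h = -(k * α) then (q:ℂ) else 0)) := by
      intro h
      rw [Finset.sum_comm]
      refine Finset.sum_congr rfl fun k _ => ?_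
      rw [← Finset.mul_sum, ← Finset.mul_sum, TA2.sum_char']
      have h8 : (-(h + k * α) = 0) ↔ h = -(k * α) := by
        rw [neg_eq_zero, add_eq_zero_iff_eq_neg]
      by_cases h9 : h = -(k * α)
      · rw [if_pos (h8.2 h9), if_pos h9]
      · rw [if_neg (fun h' => h9 (h8.1 h')), if_neg h9]
    rw [Finset.sum_congr rfl (fun h _ => h7 h), Finset.sum_comm]
    refine Finset.sum_congr rfl fun k _ => ?_
    rw [Finset.sum_eq_single (-(k * α))]
    · rw [if_pos rfl]
      have : -(-(k * α)) - k = k * α - k := by ring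
      rw [this]
      ring
    · intro h _ hh
      rw [if_neg hh, mul_zero, mul_zero]
    · intro h; exact absurd (mem_univ _) h
  -- the zero frequency
  have h0 : (q:ℂ) * (Fc x 0 (-((0:ZMod q) * α)) * Fc y 0 (0:ZMod q) *
      ZMod.stdAddChar ((0:ZMod q) * α - 0)) = ((x * y / q : ℝ) : ℂ) := by
    rw [zero_mul, neg_zero, sub_zero, AddChar.map_zero_eq_one, Fc_zero, Fc_zero]
    push_cast
    field_simp
    ring
  have h2 : (((((univ : Finset (ZMod q)).filter (fun i => i.val < x ∧ (α * i).val < y)).card : ℝ) -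
      x * y / q : ℝ) : ℂ) = ∑ k ∈ (univ : Finset (ZMod q)).erase 0, (q:ℂ) *
        (Fc x 0 (-(k * α)) * Fc y 0 k * ZMod.stdAddChar (k * α - k)) := by
    rw [Complex.ofReal_sub, h1, ← Finset.add_sum_erase univ _ (mem_univ (0 : ZMod q)), h0]
    ring
  rw [← Real.norm_eq_abs, ← Complex.norm_real, h2, Finset.mul_sum]
  refine (norm_sum_le _ _).trans ?_
  refine le_trans ?_ (Finset.sum_le_sum_of_subset_of_nonneg (Finset.erase_subset (0 : ZMod q) univ)
    (fun α _ _ => by positivity))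
  refine Finset.sum_le_sum fun k hk => ?_
  have hk0 : k ≠ 0 := (Finset.mem_erase.1 hk).1
  rw [norm_mul, norm_mul, norm_mul, TA2.norm_char, mul_one, Complex.norm_natCast]
  gcongr
  · have h4 : -(k * α) ≠ 0 := neg_ne_zero.2 (mul_ne_zero hk0 hα)
    have h5 := norm_Fc (q := q) (t := x) (φ := 0) le_rfl zero_le_one h4
    rw [nn_neg, mul_comm k α] at h5
    rw [mul_comm k α]
    exact h5
  · exact norm_Fc (q := q) (t := y) (φ := 0) le_rfl zero_le_one hk0

end Pool.Agent.Y245.SD
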