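import Pool.Agent.Y258.SD.CStmts
import Pool.Agent.Y245.SD.Alpha

set_option autoImplicit false

/-!
# Job C20 of the project of helper258: the two dimensional base net
-/

namespace Pool.Agent.Y245.SD

open Finset Pool.Agent.H470D4
open Pool.Agent.H935R2.PS (La uu nn dl mx Suit)
open Pool.Agent.Y258

section
variable {q M B : ℕ} [hq : Fact q.Prime]

/-- the digits of the planar net -/
def c20 (q M B : ℕ) (α : ZMod q) : Flg q M B 0 := fun a j =>
  if h : j < M * B then
    (if a = 0 then LinearMap.proj (⟨j, h⟩ : Fin (M * B))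
      else α • LinearMap.proj (⟨M * B - 1 - j, by omega⟩ : Fin (M * B)))
  else 0

theorem c20_zero (α : ZMod q) {j : ℕ} (h : j < M * B) (ν : Vec q M B) :
    c20 q M B α 0 j ν = ν ⟨j, h⟩ := by
  simp [c20, h]

theorem c20_one (α : ZMod q) {j : ℕ} (h : j < M * B) (ν : Vec q M B) :
    c20 q M B α 1 j ν = α * ν ⟨M * B - 1 - j, by omega⟩ := by
  simp [c20, h]

theorem c20_big (α : ZMod q) (a : Fin 2) {j : ℕ} (h : ¬ j < M * B) (ν : Vec q M B) :
    c20 q M B α a j ν = 0 := by
  simp [c20, h]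

theorem c20_AA (α : ZMod q) (hα : α ≠ 0) (ω : Pth q B) (W : Fin (0 + 2) → ℕ) :
    AA (c20 q M B α) ω W 0 = ⨅ i ∈ {i : Fin (M * B) | (i:ℕ) < W 0 ∨ M * B ≤ i + W 1},
      LinearMap.ker (LinearMap.proj i : (Fin (M * B) → ZMod q) →ₗ[ZMod q] ZMod q) := by
  ext ν
  rw [mem_AA]
  simp only [Submodule.mem_iInf, LinearMap.mem_ker, LinearMap.proj_apply, Set.mem_ofPred_eq]
  constructor
  · rintro ⟨h, _⟩ i hi
    rcases hi with hi | hi
    · have := h 0 i hi
      rw [c20_zero α i.2] at this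
      exact this
    · have h1 := h 1 (M * B - 1 - i) (by have := i.2; omega)
      rw [c20_one α (by have := i.2; omega)] at h1
      have h2 : (⟨M * B - 1 - (M * B - 1 - (i:ℕ)), by omega⟩ : Fin (M * B)) = i := by
        apply Fin.ext
        simp only
        have := i.2
        omega
      rw [h2] at h1
      exact (mul_eq_zero.1 h1).resolve_left hα
  · intro h
    refine ⟨?_, fun j hj => by omega⟩
    intro a j hj
    by_cases hjm : j < M * B
    · fin_cases a
      · show c20 q M B α 0 j ν = 0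
        rw [c20_zero α hjm]
        exact h _ (Or.inl hj)
      · show c20 q M B α 1 j ν = 0
        rw [c20_one α hjm, h _ (Or.inr ?_), mul_zero]
        simp only
        have : j < W 1 := hj
        omega
    · exact c20_big α a hjm ν

theorem c20_flags (α : ZMod q) (hα : α ≠ 0) : IsFlags (c20 q M B α) := by
  classical
  refine ⟨fun l ν => c20_zero α l.2 ν, fun ω W => ?_⟩
  rw [c20_AA α hα ω W]
  set J : Set (Fin (M * B)) := {i : Fin (M * B) | (i:ℕ) < W 0 ∨ M * B ≤ i + W 1} with hJ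
  set I : Set (Fin (M * B)) := {i : Fin (M * B) | ¬ ((i:ℕ) < W 0 ∨ M * B ≤ i + W 1)} with hI
  have hd : Disjoint I J := by
    rw [Set.disjoint_left]
    intro i hi hi'
    exact hi hi'
  have hu : Set.univ ⊆ I ∪ J := by
    intro i _
    by_cases h : i ∈ J
    · exact Or.inr h
    · exact Or.inl h
  have e := LinearMap.iInfKerProjEquiv (ZMod q) (fun _ : Fin (M * B) => ZMod q) hd hu
  rw [LinearEquiv.finrank_eq e, Module.finrank_fintype_fun_eq_card]
  have h1 : Fintype.card I = Fintype.card (Finset.Ico (W 0) (M * B - W 1)) := by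
    refine Fintype.card_congr
      { toFun := fun i => ⟨i.1, ?_⟩
        invFun := fun j => ⟨⟨j.1, ?_⟩, ?_⟩
        left_inv := fun i => rfl
        right_inv := fun j => rfl }
    · have h2 : ¬ (((i.1 : Fin (M * B)) : ℕ) < W 0 ∨ M * B ≤ (i.1 : Fin (M * B)) + W 1) := i.2
      rw [Finset.mem_Ico]
      omega
    · have := Finset.mem_Ico.1 j.2
      omega
    · have := Finset.mem_Ico.1 j.2
      show ¬ ((j.1 : ℕ) < W 0 ∨ M * B ≤ (j.1 : ℕ) + W 1)
      omega
  rw [h1, Fintype.card_coe, Nat.card_Ico]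
  have h2 : ∑ a : Fin (0 + 2), W a = W 0 + W 1 := Fin.sum_univ_two W
  rw [h2]
  omega

theorem sum_Lbox {β : Type} [AddCommMonoid β] (f : (Fin (0 + 2) → ℕ) → β) :
    ∑ l ∈ Lbox M B 0, f l = ∑ a ∈ range (M * B), ∑ b ∈ range (M * B), f ![a, b] := by
  rw [← Finset.sum_product']
  refine Finset.sum_nbij' (fun l => (l 0, l 1)) (fun p => ![p.1, p.2]) ?_ ?_ ?_ ?_ ?_
  · intro l hl
    rw [Lbox, Fintype.mem_piFinset] at hl
    exact Finset.mem_product.2 ⟨hl 0, hl 1⟩
  · intro p hp
    rw [Finset.mem_product] at hp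
    rw [Lbox, Fintype.mem_piFinset]
    intro a
    fin_cases a
    · exact hp.1
    · exact hp.2
  · intro l _
    funext a
    fin_cases a <;> rfl
  · intro p _
    rfl
  · intro l _
    congr 1
    funext a
    fin_cases a <;> rfl

open Classical in
/-- the cells of dimension `-1` -/
theorem card_diag (α : ZMod q) (hα : α ≠ 0) (X : Fin (0 + 2) → ℕ → ZMod q) (ω : Pth q B)
    {a b : ℕ} (hab : a + b + 1 = M * B) :
    (cell (c20 q M B α) (mkDat (M * B) X 0 0 0) ω 0 ![a, b]).card =
      ((univ : Finset (ZMod q)).filter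
        (fun i => i.val < (X 0 a).val ∧ (α * i).val < (X 1 b).val)).card := by
  have ha : a < M * B := by omega
  have hb : b < M * B := by omega
  -- description of the cell
  have hmem : ∀ ν : Vec q M B, ν ∈ cell (c20 q M B α) (mkDat (M * B) X 0 0 0) ω 0 ![a, b] ↔
      ((∀ j, ∀ hj : j < a, ν ⟨j, by omega⟩ = X 0 j) ∧ (ν ⟨a, ha⟩).val < (X 0 a).val) ∧
      ((∀ j, ∀ hj : j < b, α * ν ⟨M * B - 1 - j, by omega⟩ = X 1 j) ∧
        (α * ν ⟨a, ha⟩).val < (X 1 b).val) := by
    intro ν
    rw [cell, mem_filter]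
    have hbb : (⟨M * B - 1 - b, by omega⟩ : Fin (M * B)) = ⟨a, ha⟩ := by
      apply Fin.ext; simp only; omega
    constructor
    · rintro ⟨_, h, _⟩
      have h0 := h 0
      have h1 := h 1
      refine ⟨⟨fun j hj => ?_, ?_⟩, ⟨fun j hj => ?_, ?_⟩⟩
      · have h2 := h0.1 j hj
        rw [c20_zero α (by omega)] at h2
        simpa [mkDat] using h2
      · have h2 := h0.2
        have h3 : (![a, b] : Fin (0 + 2) → ℕ) 0 = a := rfl
        rw [h3, c20_zero α ha] at h2
        simpa [mkDat] using h2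
      · have h2 := h1.1 j hj
        rw [c20_one α (by omega)] at h2
        simpa [mkDat] using h2
      · have h2 := h1.2
        have h3 : (![a, b] : Fin (0 + 2) → ℕ) 1 = b := rfl
        rw [h3, c20_one α hb, hbb] at h2
        simpa [mkDat] using h2
    · rintro ⟨⟨h1, h2⟩, ⟨h3, h4⟩⟩
      refine ⟨mem_univ _, ?_, fun j hj => by omega⟩
      intro a'
      fin_cases a'
      · refine ⟨fun j hj => ?_, ?_⟩
        · have hj' : j < a := hj
          show c20 q M B α 0 j ν = _
          rw [c20_zero α (by omega), h1 j hj']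
          simp [mkDat]
        · show c20 q M B α 0 a ν ∈ _
          rw [c20_zero α ha]
          simpa [mkDat] using h2
      · refine ⟨fun j hj => ?_, ?_⟩
        · have hj' : j < b := hj
          show c20 q M B α 1 j ν = _
          rw [c20_one α (by omega), h3 j hj']
          simp [mkDat]
        · show c20 q M B α 1 b ν ∈ _
          rw [c20_one α hb, hbb]
          simpa [mkDat] using h4
  refine Finset.card_nbij' (fun ν => ν ⟨a, ha⟩) (fun i => fun j : Fin (M * B) =>
    if (j:ℕ) < a then X 0 j else if (j:ℕ) = a then i else α⁻¹ * X 1 (M * B - 1 - j)) ?_ ?_ ?_ ?_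
  · intro ν hν
    have h := (hmem ν).1 hν
    exact mem_filter.2 ⟨mem_univ _, h.1.2, h.2.2⟩
  · intro i hi
    have h := (mem_filter.1 hi).2
    refine (hmem _).2 ⟨⟨fun j hj => ?_, ?_⟩, ⟨fun j hj => ?_, ?_⟩⟩
    · simp [hj]
    · simpa using h.1
    · have h1 : ¬ (M * B - 1 - j < a) := by omega
      have h2 : ¬ (M * B - 1 - j = a) := by omega
      have h3 : M * B - 1 - (M * B - 1 - j) = j := by omega
      simp only [h1, h2, if_false, h3]
      rw [← mul_assoc, mul_inv_cancel₀ hα, one_mul]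
    · simpa using h.2
  · intro ν hν
    have h := (hmem ν).1 hν
    funext j
    simp only
    split_ifs with h1 h2
    · exact (h.1.1 j h1).symm
    · congr 1
      exact Fin.ext h2.symm
    · have h3 := h.2.1 (M * B - 1 - j) (by have := j.2; omega)
      have h4 : (⟨M * B - 1 - (M * B - 1 - (j:ℕ)), by omega⟩ : Fin (M * B)) = j := by
        apply Fin.ext; simp only; have := j.2; omega
      rw [h4] at h3
      rw [← h3, ← mul_assoc, inv_mul_cancel₀ hα, one_mul]
  · intro i _
    simp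

open Classical in
/-- the points in the small cells -/
theorem card_tail (α : ZMod q) (hα : α ≠ 0) (X : Fin (0 + 2) → ℕ → ZMod q) (ω : Pth q B)
    {a : ℕ} (ha : a < M * B) :
    ∑ b ∈ (range (M * B)).filter (fun b => M * B - a ≤ b),
      ((cell (c20 q M B α) (mkDat (M * B) X 0 0 0) ω 0 ![a, b]).card : ℝ) ≤ 1 := by
  set d := mkDat (M * B) X 0 0 0 with hd
  have h1 : ∀ ν : Vec q M B, ∑ b ∈ (range (M * B)).filter (fun b => M * B - a ≤ b),
      ii (Lev (c20 q M B α) d ν ![a, b]) ≤
      ii (∀ a', ∀ j < (![a, M * B - a] : Fin (0 + 2) → ℕ) a', c20 q M B α a' j ν = d.x a' j) := by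
    intro ν
    by_cases h : ∃ b ∈ (range (M * B)).filter (fun b => M * B - a ≤ b),
        Lev (c20 q M B α) d ν ![a, b]
    · obtain ⟨b, hb, hL⟩ := h
      have hb' := (mem_filter.1 hb).2
      refine le_trans (sum_ii_le_one _ _ (fun b b' h h' => ?_)) (le_of_eq (ii_true ?_).symm)
      · have := congrFun (Lev_unique _ _ _ _ _ h h') 1
        simpa using this
      · intro a' j hj
        refine (hL a').1 j (lt_of_lt_of_le hj ?_)
        fin_cases a'
        · exact le_rfl
        · exact hb'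
    · push Not at h
      rw [sum_eq_zero (fun b hb => ii_false (h b hb))]
      exact ii_nonneg _
  calc ∑ b ∈ (range (M * B)).filter (fun b => M * B - a ≤ b),
      ((cell (c20 q M B α) d ω 0 ![a, b]).card : ℝ)
      = ∑ ν : Vec q M B, ∑ b ∈ (range (M * B)).filter (fun b => M * B - a ≤ b),
          ii (Lev (c20 q M B α) d ν ![a, b]) := by
        rw [sum_comm]
        exact sum_congr rfl fun b _ => card_cell_sum _ _ _ _
    _ ≤ ∑ ν : Vec q M B, ii (∀ a', ∀ j < (![a, M * B - a] : Fin (0 + 2) → ℕ) a',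
          c20 q M B α a' j ν = d.x a' j) := sum_le_sum fun ν _ => h1 ν
    _ = 1 := by
        have h2 : ∑ a', (![a, M * B - a] : Fin (0 + 2) → ℕ) a' = M * B := by
          rw [show ∑ a', (![a, M * B - a] : Fin (0 + 2) → ℕ) a' = a + (M * B - a) from
            Fin.sum_univ_two _]
          omega
        have h3 := card_window (c20 q M B α) (c20_flags α hα) ![a, M * B - a] h2.le d.x
        rw [← card_eq_sum_ii, h3, h2, Nat.sub_self, pow_zero, Nat.cast_one]

/-- one row of levels -/
theorem row_est (α : ZMod q) (hα : α ≠ 0) (X : Fin (0 + 2) → ℕ → ZMod q) (ω : Pth q B)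
    {D : ℝ} (hD : ∀ x y : ℕ, x < q → y < q →
      |(((univ : Finset (ZMod q)).filter (fun i => i.val < x ∧ (α * i).val < y)).card : ℝ) -
      x * y / q| ≤ D) {a : ℕ} (ha : a < M * B) :
    |∑ b ∈ range (M * B), (((cell (c20 q M B α) (mkDat (M * B) X 0 0 0) ω 0 ![a, b]).card : ℝ) -
      (q:ℝ) ^ (M * B) * (vol (mkDat (M * B) X 0 0 0) 0 a * vol (mkDat (M * B) X 0 0 0) 1 b))| ≤
      D + 1 := by
  classical
  have hq0 : (0:ℝ) < q := p_pos''
  set d : Dat q 0 := mkDat (M * B) X 0 0 0 with hd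
  set g : ℕ → ℝ := fun b => ((cell (c20 q M B α) d ω 0 ![a, b]).card : ℝ) -
      (q:ℝ) ^ (M * B) * (vol d 0 a * vol d 1 b) with hg
  have hlow0 : (d.low 0 a).card = (X 0 a).val := card_shift_lt 0 (X 0 a)
  have hlow1 : ∀ b, (d.low 1 b).card = (X 1 b).val := fun b => card_shift_lt 0 (X 1 b)
  set k := M * B - 1 - a with hk
  have hkm : k < M * B := by omega
  -- small `b`
  have hsmall : ∀ b < k, g b = 0 := by
    intro b hb
    have h2 : ∑ a', ((![a, b] : Fin (0 + 2) → ℕ) a' + 1) = a + 1 + (b + 1) := Fin.sum_univ_two _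
    have h3 : ∏ a', (d.low a' ((![a, b] : Fin (0 + 2) → ℕ) a')).card =
        (d.low 0 a).card * (d.low 1 b).card := Fin.prod_univ_two _
    have h4 := card_cell (c20 q M B α) (c20_flags α hα) d ω ![a, b] (by rw [h2]; omega)
    rw [hg]
    simp only
    rw [h4, h3, h2, vol, vol]
    have h5 : (q:ℝ) ^ (M * B) = (q:ℝ) ^ (M * B - (a + 1 + (b + 1))) * ((q:ℝ) ^ (a + 1) *
        (q:ℝ) ^ (b + 1)) := by
      rw [← pow_add, ← pow_add]; congr 1; omega
    rw [h5]
    push_cast
    field_simp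
    ring
  -- `b = k`
  have hdiag : |g k| ≤ D := by
    rw [hg]
    simp only
    rw [card_diag α hα X ω (by omega), vol, vol, hlow0, hlow1]
    have h5 : (q:ℝ) ^ (M * B) * ((((X 0 a).val : ℕ) : ℝ) / (q:ℝ) ^ (a + 1) *
        ((((X 1 k).val : ℕ) : ℝ) / (q:ℝ) ^ (k + 1))) = ((X 0 a).val : ℝ) * (X 1 k).val / q := by
      have h6 : (q:ℝ) ^ (a + 1) * (q:ℝ) ^ (k + 1) = (q:ℝ) ^ (M * B) * q := by
        rw [← pow_add, ← pow_succ]; congr 1; omega
      rw [div_mul_div_comm, h6]
      field_simp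
    rw [h5]
    exact hD _ _ (ZMod.val_lt _) (ZMod.val_lt _)
  -- large `b`
  have htail : |∑ b ∈ (range (M * B)).filter (fun b => M * B - a ≤ b), g b| ≤ 1 := by
    rw [hg, sum_sub_distrib]
    have h1 := card_tail (M := M) (B := B) α hα X ω ha
    rw [← hd] at h1
    have h1' : 0 ≤ ∑ b ∈ (range (M * B)).filter (fun b => M * B - a ≤ b),
      ((cell (c20 q M B α) d ω 0 ![a, b]).card : ℝ) := sum_nonneg fun _ _ => Nat.cast_nonneg _
    have h2 : ∑ b ∈ (range (M * B)).filter (fun b => M * B - a ≤ b),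
        (q:ℝ) ^ (M * B) * (vol d 0 a * vol d 1 b) ≤ 1 := by
      have h3 : ∑ b ∈ (range (M * B)).filter (fun b => M * B - a ≤ b),
        (q:ℝ) ^ (M * B) * (vol d 0 a * vol d 1 b) = (q:ℝ) ^ (M * B) * (vol d 0 a *
          ∑ b ∈ (range (M * B)).filter (fun b => M * B - a ≤ b), vol d 1 b) := by
        rw [mul_sum, mul_sum]
      have h4 := vol_tail d 1 (M * B - a) (M * B)
      have h5 : vol d 0 a ≤ 1 / (q:ℝ) ^ a := by
        refine (vol_le d 0 a).trans ?_
        have : 0 ≤ 1 / (q:ℝ) ^ (a + 1) := by positivity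
        linarith
      rw [h3]
      calc (q:ℝ) ^ (M * B) * (vol d 0 a *
          ∑ b ∈ (range (M * B)).filter (fun b => M * B - a ≤ b), vol d 1 b)
          ≤ (q:ℝ) ^ (M * B) * (1 / (q:ℝ) ^ a * (1 / (q:ℝ) ^ (M * B - a))) := by
            refine mul_le_mul_of_nonneg_left ?_ (by positivity)
            exact mul_le_mul h5 h4 (sum_nonneg fun b _ => vol_nonneg d 1 b) (by positivity)
        _ = 1 := by
            have h6 : (q:ℝ) ^ (M * B) = (q:ℝ) ^ a * (q:ℝ) ^ (M * B - a) := by
              rw [← pow_add]; congr 1; omega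
            rw [h6]
            field_simp
    have h2' : 0 ≤ ∑ b ∈ (range (M * B)).filter (fun b => M * B - a ≤ b),
        (q:ℝ) ^ (M * B) * (vol d 0 a * vol d 1 b) :=
      sum_nonneg fun b _ => mul_nonneg (by positivity)
        (mul_nonneg (vol_nonneg d 0 a) (vol_nonneg d 1 b))
    rw [abs_le]
    constructor <;> linarith
  have hsplit : ∑ b ∈ range (M * B), g b =
      g k + ∑ b ∈ (range (M * B)).filter (fun b => M * B - a ≤ b), g b := by
    rw [← sum_filter_add_sum_filter_not (range (M * B)) (fun b => M * B - a ≤ b) g, add_comm]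
    congr 1
    rw [sum_eq_single k]
    · intro b hb hbk
      rw [mem_filter, mem_range] at hb
      exact hsmall b (by omega)
    · intro h
      exfalso
      apply h
      rw [mem_filter, mem_range]
      omega
  show |∑ b ∈ range (M * B), g b| ≤ D + 1
  rw [hsplit]
  exact (abs_add_le _ _).trans (add_le_add hdiag htail)

/-- the planar net -/
theorem c20_GB (α : ZMod q) (hα : α ≠ 0) {D : ℝ} (hD : ∀ x y : ℕ, x < q → y < q →
      |(((univ : Finset (ZMod q)).filter (fun i => i.val < x ∧ (α * i).val < y)).card : ℝ) -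
      x * y / q| ≤ D) : GB (c20 q M B α) (((M * B : ℕ) : ℝ) * (D + 1)) := by
  classical
  intro X
  have ω : Pth q B := fun _ _ => 0
  set d : Dat q 0 := mkDat (M * B) X 0 0 0 with hd
  have h1 : ∑ ν : Vec q M B, ii (∀ a, tv (fun j => c20 q M B α a j ν) (M * B) <
      tv (X a) (M * B)) = ∑ l ∈ Lbox M B 0, ((cell (c20 q M B α) d ω 0 l).card : ℝ) := by
    rw [sum_congr rfl (fun l _ => card_cell_sum (c20 q M B α) d ω l), sum_comm]
    refine sum_congr rfl fun ν _ => ?_
    have h2 := lev_ind (c20 q M B α) (M * B) X 0 0 0 ν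
    rw [← hd] at h2
    rw [← h2]
    apply ii_congr
    simp
  have h2 : ∏ a, tv (X a) (M * B) = ∑ l ∈ Lbox M B 0, ∏ a, vol d a (l a) := by
    rw [← Lbox_split]
    exact prod_congr rfl fun a _ => (vol_mkDat X 0 0 0 (M * B) (M * B) a).symm
  rw [h1, h2, mul_sum, ← sum_sub_distrib, sum_Lbox]
  refine (abs_sum_le_sum_abs _ _).trans ?_
  refine (sum_le_sum (g := fun _ => D + 1) fun a ha => ?_).trans (le_of_eq ?_)
  · have h3 := row_est α hα X ω hD (mem_range.1 ha)
    refine le_trans (le_of_eq ?_) h3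
    congr 1
    refine sum_congr rfl fun b _ => ?_
    congr 2
    exact Fin.prod_univ_two _
  · rw [sum_const, card_range, nsmul_eq_mul]

end

/-- **Job C20** -/
theorem C20 : St_C20 := by
  refine ⟨25, ?_⟩
  intro q hq h3 M B hM hB
  obtain ⟨α, hα, h1⟩ := exists_mult (q := q) h3
  refine ⟨c20 q M B α, c20_flags α hα, ?_⟩
  intro X
  refine (c20_GB α hα (D := 24 * (La q : ℝ) ^ 2) (fun x y hx hy => ?_) X).trans ?_
  · exact (planar_disc hα hx hy).trans h1
  · have hL : (1:ℝ) ≤ La q := by exact_mod_cast Pool.Agent.Y255.SD.La_pos h3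
    have hL2 : (1:ℝ) ≤ (La q : ℝ) ^ 2 := one_le_pow₀ hL
    have h4 : (0:ℝ) ≤ ((M * B : ℕ) : ℝ) := Nat.cast_nonneg _
    push_cast at h4 ⊢
    nlinarith

end Pool.Agent.Y245.SD
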